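import Mathlib
import Pool.Agent.N485.Telgarsky

set_option autoImplicit false

/-!
MP_e752eb_gt: Q1 and Q2, both answered positively.
-/

namespace Pool.Agent.Results.MP_e752eb_gt.StrongTelgarsky

universe u

/-- `X` is strongly Telgársky pseudocomplete: it has a base `ℬ` of non-empty open sets such that
every sequence `(B n)` of members of `ℬ` with `Cl (B (n + 1)) ⊆ Int (B n)` for all `n` has
non-empty intersection. -/
def StronglyTelgarsky (X : Type u) [TopologicalSpace X] : Prop :=
  ∃ ℬ : Set (Set X), TopologicalSpace.IsTopologicalBasis ℬ ∧ (∀ B ∈ ℬ, B.Nonempty) ∧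
    ∀ B : ℕ → Set X, (∀ n, B n ∈ ℬ) → (∀ n, closure (B (n + 1)) ⊆ interior (B n)) →
      (⋂ n, B n).Nonempty

/-- Q1: every Čech-complete space (a Tychonoff space which is a `G_δ` in its Stone–Čech
compactification) is strongly Telgársky pseudocomplete. Q2: every completely metrizable space is
strongly Telgársky pseudocomplete. -/
theorem result :
    (∀ (X : Type u) [TopologicalSpace X] [T35Space X],
      IsGδ (Set.range (stoneCechUnit : X → StoneCech X)) → StronglyTelgarsky X) ∧
    (∀ (X : Type u) [TopologicalSpace X] [TopologicalSpace.IsCompletelyMetrizableSpace X],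
      StronglyTelgarsky X) :=
  ⟨fun X _ _ h => Pool.Agent.N485.TP.cech X h, fun X _ _ => Pool.Agent.N485.TP.metr X⟩

end Pool.Agent.Results.MP_e752eb_gt.StrongTelgarsky
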